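import Pool.Agent.helper32.TRI.Spec

/-!
# Row `tr:RL4` (MP_561ff4_al): the list of the roots of `D₄`
-/

set_option autoImplicit false

open Finset

namespace Pool.Agent.TRI

open Pool.Agent.EXC

set_option maxRecDepth 100000 in
theorem RL4_closed : ∀ k : Fin 24, ∀ i : Fin 4, ∃ j, rf C4 i (lt4 k) = lt4 j := by decide +kernel

theorem RL4_sr : ∃ k, (sr 0 : Fin 4 → ℤ) = lt4 k := by decide +kernel

theorem RL4 : RL4_stmt := by
  intro v hv
  have h := f_DOM 4 C4 univ D4_con (sr 0) v (ip_sr_self C4 0) hv (fun i hi => absurd (mem_univ i) hi)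
    (fun i hi => absurd (mem_univ i) hi)
  induction h with
  | refl => exact RL4_sr
  | @tail b c _ hbc ih =>
    obtain ⟨i, -, rfl⟩ := hbc
    have e := (f_RFL 4 C4 i b b).1
    rw [e] at hv
    obtain ⟨k, rfl⟩ := ih hv
    exact RL4_closed k i

end Pool.Agent.TRI
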